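import Mathlib

set_option autoImplicit false
set_option linter.unusedSectionVars false
set_option linter.unusedSimpArgs false

/-!
# The graph colouring game

`AWin G k f` : Alice wins the colouring game with colours `0..k-1` from the partial colouring `f`
(whose number of coloured vertices decides who is to move).
-/

namespace Pool.Agent.Lib_helper74.CG

open Finset

variable {V : Type} [Fintype V] [DecidableEq V] (G : SimpleGraph V) (k : ℕ)

/-- a legal move -/
def Legal (f : V → Option ℕ) (v : V) (c : ℕ) : Prop :=
  f v = none ∧ c < k ∧ ∀ w, G.Adj v w → f w ≠ some c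

/-- the closure condition of the problem's statement -/
def Cond (W : Set (V → Option ℕ)) (f : V → Option ℕ) : Prop :=
  ((¬ ∃ v c, f v = none ∧ c < k ∧ ∀ w, G.Adj v w → f w ≠ some c) →
      ∀ v, f v ≠ none) ∧
  (Even (Finset.univ.filter (fun v => f v ≠ none)).card →
      (∃ v c, f v = none ∧ c < k ∧ ∀ w, G.Adj v w → f w ≠ some c) →
      ∃ v c, f v = none ∧ c < k ∧ (∀ w, G.Adj v w → f w ≠ some c) ∧
        Function.update f v (some c) ∈ W) ∧
  (¬ Even (Finset.univ.filter (fun v => f v ≠ none)).card →
      ∀ v c, f v = none → c < k → (∀ w, G.Adj v w → f w ≠ some c) →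
        Function.update f v (some c) ∈ W)

/-- Alice wins from `f` -/
def AWin (f : V → Option ℕ) : Prop :=
  ∃ W : Set (V → Option ℕ), f ∈ W ∧ ∀ g ∈ W, Cond G k W g

variable {G k}

theorem Cond.mono {W W' : Set (V → Option ℕ)} (h : W ⊆ W') {f : V → Option ℕ}
    (hf : Cond G k W f) : Cond G k W' f := by
  obtain ⟨h1, h2, h3⟩ := hf
  refine ⟨h1, ?_, ?_⟩
  · intro he hex
    obtain ⟨v, c, a, b, d, e⟩ := h2 he hex
    exact ⟨v, c, a, b, d, h e⟩
  · intro he v c a b d
    exact h (h3 he v c a b d)

theorem AWin.cond {f : V → Option ℕ} (h : AWin G k f) : Cond G k {g | AWin G k g} f := by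
  obtain ⟨W, hf, hW⟩ := h
  have hsub : W ⊆ {g | AWin G k g} := fun g hg => ⟨W, hg, hW⟩
  exact (hW f hf).mono hsub

theorem Cond.awin {f : V → Option ℕ} (h : Cond G k {g | AWin G k g} f) : AWin G k f := by
  refine ⟨insert f {g | AWin G k g}, Set.mem_insert _ _, ?_⟩
  intro g hg
  rcases hg with rfl | hg
  · exact h.mono (Set.subset_insert _ _)
  · exact (AWin.cond hg).mono (Set.subset_insert _ _)

/-- number of coloured vertices -/
def ncol (f : V → Option ℕ) : ℕ := (Finset.univ.filter (fun v => f v ≠ none)).card

theorem ncol_update {f : V → Option ℕ} {v : V} {c : ℕ} (h : f v = none) :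
    ncol (Function.update f v (some c)) = ncol f + 1 := by
  unfold ncol
  have : (Finset.univ.filter (fun w => Function.update f v (some c) w ≠ none))
      = insert v (Finset.univ.filter (fun w => f w ≠ none)) := by
    ext w
    by_cases hw : w = v
    · subst hw; simp
    · simp [Function.update_of_ne hw, hw]
  rw [this, Finset.card_insert_of_notMem]
  simp [h]

theorem ncol_lt {f : V → Option ℕ} {v : V} (h : f v = none) : ncol f < Fintype.card V := by
  unfold ncol
  apply Finset.card_lt_univ_of_notMem (x := v)
  simp [h]

theorem ncol_le (f : V → Option ℕ) : ncol f ≤ Fintype.card V := by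
  unfold ncol
  exact Finset.card_le_univ _

/-- Alice to move: one winning move suffices -/
theorem awin_of_move {f : V → Option ℕ} (he : Even (ncol f)) {v : V} {c : ℕ}
    (hl : Legal G k f v c) (hw : AWin G k (Function.update f v (some c))) : AWin G k f := by
  apply Cond.awin
  refine ⟨?_, ?_, ?_⟩
  · intro h
    exact absurd ⟨v, c, hl⟩ h
  · intro _ _
    exact ⟨v, c, hl.1, hl.2.1, hl.2.2, hw⟩
  · intro h
    exact absurd he h

/-- Bob to move: all moves must be winning for Alice -/
theorem awin_of_all {f : V → Option ℕ} (he : ¬ Even (ncol f))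
    (hd : (∃ v, f v = none) → ∃ v c, Legal G k f v c)
    (hw : ∀ v c, Legal G k f v c → AWin G k (Function.update f v (some c))) : AWin G k f := by
  apply Cond.awin
  refine ⟨?_, ?_, ?_⟩
  · intro h v hv
    exact h (hd ⟨v, hv⟩)
  · intro h
    exact absurd h he
  · intro _ v c h1 h2 h3
    exact hw v c ⟨h1, h2, h3⟩

theorem not_awin_of_move {f : V → Option ℕ} (he : ¬ Even (ncol f)) {v : V} {c : ℕ}
    (hl : Legal G k f v c) (hw : ¬ AWin G k (Function.update f v (some c))) : ¬ AWin G k f := by
  intro h
  exact hw (h.cond.2.2 he v c hl.1 hl.2.1 hl.2.2)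

theorem not_awin_of_all {f : V → Option ℕ} (he : Even (ncol f))
    (hd : ∃ v, f v = none)
    (hw : ∀ v c, Legal G k f v c → ¬ AWin G k (Function.update f v (some c))) :
    ¬ AWin G k f := by
  intro h
  have h1 := h.cond.1
  by_cases hex : ∃ v c, f v = none ∧ c < k ∧ ∀ w, G.Adj v w → f w ≠ some c
  · obtain ⟨v, c, a, b, d, e⟩ := h.cond.2.1 he hex
    exact hw v c ⟨a, b, d⟩ e
  · obtain ⟨v, hv⟩ := hd
    exact h1 hex v hv

/-- a vertex without available colours -/
def Dead (G : SimpleGraph V) (k : ℕ) (f : V → Option ℕ) (v : V) : Prop :=
  f v = none ∧ ∀ c, c < k → ∃ w, G.Adj v w ∧ f w = some c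

theorem Dead.update {f : V → Option ℕ} {v : V} (h : Dead G k f v) {w : V} {c : ℕ}
    (hl : Legal G k f w c) : Dead G k (Function.update f w (some c)) v := by
  have hwv : w ≠ v := by
    rintro rfl
    obtain ⟨u, hu, hu'⟩ := h.2 c hl.2.1
    exact hl.2.2 u hu hu'
  refine ⟨by rw [Function.update_of_ne hwv.symm]; exact h.1, ?_⟩
  intro d hd
  obtain ⟨u, hu, hu'⟩ := h.2 d hd
  refine ⟨u, hu, ?_⟩
  have : u ≠ w := by
    rintro rfl
    rw [hl.1] at hu'
    simp at hu'
  rw [Function.update_of_ne this]
  exact hu'

theorem not_awin_dead {f : V → Option ℕ} {v : V} (h : Dead G k f v) : ¬ AWin G k f := by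
  induction hm : Fintype.card V - ncol f using Nat.strong_induction_on generalizing f with
  | _ m ih =>
    intro hA
    have hlt := ncol_lt h.1
    have key : ∀ w c, Legal G k f w c → ¬ AWin G k (Function.update f w (some c)) := by
      intro w c hl
      refine ih (Fintype.card V - ncol (Function.update f w (some c))) ?_ (h.update hl) rfl
      have := ncol_update (c := c) hl.1
      omega
    by_cases he : Even (ncol f)
    · exact not_awin_of_all he ⟨v, h.1⟩ key hA
    · have h1 := hA.cond.1
      by_cases hex : ∃ v c, f v = none ∧ c < k ∧ ∀ w, G.Adj v w → f w ≠ some c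
      · obtain ⟨w, c, hw⟩ := hex
        exact not_awin_of_move he hw (key w c hw) hA
      · exact h1 hex v h.1

/-- every uncoloured vertex has more available colours than uncoloured neighbours -/
def Safe (G : SimpleGraph V) [DecidableRel G.Adj] (k : ℕ) (f : V → Option ℕ) : Prop :=
  ∀ v, f v = none →
    (univ.filter (fun w => G.Adj v w ∧ f w = none)).card <
      ((range k).filter (fun c => ∀ w, G.Adj v w → f w ≠ some c)).card

theorem Safe.update [DecidableRel G.Adj] {f : V → Option ℕ} (h : Safe G k f) {w : V} {c : ℕ}
    (hl : Legal G k f w c) : Safe G k (Function.update f w (some c)) := by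
  intro v hv
  have hvw : v ≠ w := by
    rintro rfl
    simp at hv
  rw [Function.update_of_ne hvw] at hv
  have h0 := h v hv
  by_cases hadj : G.Adj v w
  · -- neighbour
    have h1 : (univ.filter (fun u => G.Adj v u ∧ Function.update f w (some c) u = none)).card + 1
        = (univ.filter (fun u => G.Adj v u ∧ f u = none)).card := by
      have : (univ.filter (fun u => G.Adj v u ∧ f u = none))
          = insert w (univ.filter (fun u => G.Adj v u ∧ Function.update f w (some c) u = none)) := by
        ext u
        by_cases hu : u = w
        · subst hu; simp [hadj, hl.1]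
        · simp [Function.update_of_ne hu, hu]
      rw [this, Finset.card_insert_of_notMem]
      simp
    have h2 : ((range k).filter (fun d => ∀ u, G.Adj v u → f u ≠ some d)).card ≤
        ((range k).filter (fun d => ∀ u, G.Adj v u →
          Function.update f w (some c) u ≠ some d)).card + 1 := by
      have : ((range k).filter (fun d => ∀ u, G.Adj v u → f u ≠ some d)) ⊆
          insert c ((range k).filter (fun d => ∀ u, G.Adj v u →
          Function.update f w (some c) u ≠ some d)) := by
        intro d hd
        rw [Finset.mem_insert]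
        by_cases hdc : d = c
        · left; exact hdc
        · right
          rw [Finset.mem_filter] at hd ⊢
          refine ⟨hd.1, ?_⟩
          intro u hu
          by_cases huw : u = w
          · subst huw
            simp only [Function.update_self, ne_eq, Option.some.injEq]
            exact fun e => hdc e.symm
          · rw [Function.update_of_ne huw]
            exact hd.2 u hu
      exact (Finset.card_le_card this).trans (Finset.card_insert_le _ _)
    omega
  · have h1 : (univ.filter (fun u => G.Adj v u ∧ Function.update f w (some c) u = none))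
        = (univ.filter (fun u => G.Adj v u ∧ f u = none)) := by
      ext u
      by_cases hu : u = w
      · subst hu; simp [hadj]
      · simp [Function.update_of_ne hu]
    have h2 : ((range k).filter (fun d => ∀ u, G.Adj v u → f u ≠ some d)) ⊆
        ((range k).filter (fun d => ∀ u, G.Adj v u →
          Function.update f w (some c) u ≠ some d)) := by
      intro d hd
      rw [Finset.mem_filter] at hd ⊢
      refine ⟨hd.1, ?_⟩
      intro u hu
      have huw : u ≠ w := by
        rintro rfl
        exact hadj hu
      rw [Function.update_of_ne huw]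
      exact hd.2 u hu
    rw [h1]
    exact lt_of_lt_of_le h0 (Finset.card_le_card h2)

theorem Safe.exists_legal [DecidableRel G.Adj] {f : V → Option ℕ} (h : Safe G k f) {v : V}
    (hv : f v = none) : ∃ c, Legal G k f v c := by
  have h0 := h v hv
  have : 0 < ((range k).filter (fun c => ∀ w, G.Adj v w → f w ≠ some c)).card := by omega
  obtain ⟨c, hc⟩ := Finset.card_pos.mp this
  rw [Finset.mem_filter, Finset.mem_range] at hc
  exact ⟨c, hv, hc.1, hc.2⟩

theorem Safe.awin [DecidableRel G.Adj] {f : V → Option ℕ} (h : Safe G k f) : AWin G k f := by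
  induction hm : Fintype.card V - ncol f using Nat.strong_induction_on generalizing f with
  | _ m ih =>
    have key : ∀ w c, Legal G k f w c → AWin G k (Function.update f w (some c)) := by
      intro w c hl
      refine ih (Fintype.card V - ncol (Function.update f w (some c))) ?_ (h.update hl) rfl
      have := ncol_update (c := c) hl.1
      have := ncol_lt hl.1
      omega
    by_cases he : Even (ncol f)
    · by_cases hex : ∃ v, f v = none
      · obtain ⟨v, hv⟩ := hex
        obtain ⟨c, hc⟩ := h.exists_legal hv
        exact awin_of_move he hc (key v c hc)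
      · push Not at hex
        apply Cond.awin
        refine ⟨fun _ => hex, ?_, ?_⟩
        · rintro _ ⟨v, c, hv, _⟩
          exact absurd hv (hex v)
        · intro h
          exact absurd he h
    · refine awin_of_all he ?_ key
      rintro ⟨v, hv⟩
      obtain ⟨c, hc⟩ := h.exists_legal hv
      exact ⟨v, c, hc⟩

end Pool.Agent.Lib_helper74.CG
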