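import Pool.Agent.Lib_helper74.CG.Game

set_option autoImplicit false
set_option linter.unusedSectionVars false
set_option linter.unusedSimpArgs false

/-!
# The crown gadget

`G` is a graph with an even number of vertices and a vertex `r` such that, once `r` has colour `0`
and Bob is to move, Alice wins with `k ≥ 4` colours and Bob wins with `k + 1` colours.  Attach
`k + 2` crowns (complete bipartite graphs `K_{k+2,k+2}` minus a perfect matching), each by an edge
from `r` to one of its vertices.  Alice wins the colouring game on this graph with `k` colours and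
Bob wins it with `k + 1` colours.
-/

namespace Pool.Agent.Lib_helper74.CG.Crown

open Finset Pool.Agent.Lib_helper74.CG

section general

variable {V : Type} [Fintype V] [DecidableEq V] {G : SimpleGraph V} {k : ℕ}

/-- A legal position: a proper partial colouring with colours `< k`. -/
def LegalPos (G : SimpleGraph V) (k : ℕ) (f : V → Option ℕ) : Prop :=
  (∀ v c, f v = some c → c < k) ∧ ∀ v w c, G.Adj v w → f v = some c → f w ≠ some c

theorem LegalPos.update {f : V → Option ℕ} (h : LegalPos G k f) {v : V} {c : ℕ}
    (hl : Legal G k f v c) : LegalPos G k (Function.update f v (some c)) := by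
  refine ⟨?_, ?_⟩
  · intro w d hw
    by_cases hwv : w = v
    · subst hwv
      rw [Function.update_self, Option.some.injEq] at hw
      exact hw ▸ hl.2.1
    · rw [Function.update_of_ne hwv] at hw
      exact h.1 w d hw
  · intro u w d huw hu
    by_cases huv : u = v
    · subst huv
      rw [Function.update_self, Option.some.injEq] at hu
      rw [Function.update_of_ne huw.ne']
      exact hu ▸ hl.2.2 w huw
    · rw [Function.update_of_ne huv] at hu
      by_cases hwv : w = v
      · subst hwv
        rw [Function.update_self]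
        intro he
        rw [Option.some.injEq] at he
        subst he
        exact hl.2.2 u huw.symm hu
      · rw [Function.update_of_ne hwv]
        exact h.2 u w d huw hu

/-- A colour is available at `v` for ever. -/
def Secure (G : SimpleGraph V) (k : ℕ) (F : V → Option ℕ) (v : V) : Prop :=
  ∃ c, c < k ∧ ∀ w, G.Adj v w → F w ≠ some c ∧ (F w = none → ∃ y, G.Adj w y ∧ F y = some c)

theorem Secure.update {F : V → Option ℕ} {v u : V} {d : ℕ} (h : Secure G k F v)
    (hl : Legal G k F u d) : Secure G k (Function.update F u (some d)) v := by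
  obtain ⟨c, hc, hw⟩ := h
  refine ⟨c, hc, ?_⟩
  intro w hvw
  obtain ⟨h1, h2⟩ := hw w hvw
  by_cases hwu : w = u
  · subst hwu
    rw [Function.update_self]
    refine ⟨?_, fun h => absurd h (by simp)⟩
    intro he
    rw [Option.some.injEq] at he
    subst he
    obtain ⟨y, hy1, hy2⟩ := h2 hl.1
    exact hl.2.2 y hy1 hy2
  · rw [Function.update_of_ne hwu]
    refine ⟨h1, fun h3 => ?_⟩
    obtain ⟨y, hy1, hy2⟩ := h2 h3
    refine ⟨y, hy1, ?_⟩
    have : y ≠ u := by
      rintro rfl
      rw [hl.1] at hy2
      exact absurd hy2 (by simp)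
    rw [Function.update_of_ne this]
    exact hy2

theorem Secure.legal {F : V → Option ℕ} {v : V} (h : Secure G k F v) (hv : F v = none) :
    ∃ c, Legal G k F v c := by
  obtain ⟨c, hc, hw⟩ := h
  exact ⟨c, hv, hc, fun w hvw => (hw w hvw).1⟩

theorem awin_of_full {f : V → Option ℕ} (h : ∀ v, f v ≠ none) : AWin G k f := by
  apply Cond.awin
  refine ⟨fun _ => h, ?_, ?_⟩
  · rintro _ ⟨v, c, hv, _⟩
    exact absurd hv (h v)
  · intro _ v c hv
    exact absurd hv (h v)

/-- A vertex without a legal colour is dead. -/
theorem dead_of_not_legal {f : V → Option ℕ} {v : V} (hv : f v = none)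
    (h : ∀ c, ¬ Legal G k f v c) : Dead G k f v := by
  refine ⟨hv, fun c hc => ?_⟩
  by_contra hcon
  push Not at hcon
  exact h c ⟨hv, hc, hcon⟩

/-- What it means for Alice to have won a position in which she is to move. -/
theorem awin_alice {f : V → Option ℕ} (h : AWin G k f) (he : Even (ncol f)) :
    (∀ v, f v ≠ none) ∨ ∃ v c, Legal G k f v c ∧ AWin G k (Function.update f v (some c)) := by
  by_cases hex : ∃ v c, f v = none ∧ c < k ∧ ∀ w, G.Adj v w → f w ≠ some c
  · obtain ⟨v, c, a, b, d, e⟩ := h.cond.2.1 he hex
    exact Or.inr ⟨v, c, ⟨a, b, d⟩, e⟩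
  · exact Or.inl (h.cond.1 hex)

theorem awin_bob {f : V → Option ℕ} (h : AWin G k f) (ho : ¬ Even (ncol f)) {v : V} {c : ℕ}
    (hl : Legal G k f v c) : AWin G k (Function.update f v (some c)) :=
  h.cond.2.2 ho v c hl.1 hl.2.1 hl.2.2

theorem awin_exists_legal {f : V → Option ℕ} (h : AWin G k f) {w : V} (hw : f w = none) :
    ∃ v c, Legal G k f v c := by
  by_contra hcon
  refine h.cond.1 ?_ w hw
  rintro ⟨v, c, hv⟩
  exact hcon ⟨v, c, hv⟩

/-- Renaming the colours. -/
theorem awin_rename {f : V → Option ℕ} (σ : Equiv.Perm ℕ) (hσ : ∀ c, σ c < k ↔ c < k)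
    (h : AWin G k f) : AWin G k (fun v => (f v).map σ) := by
  obtain ⟨W, hf, hW⟩ := h
  refine ⟨{g | (fun v => (g v).map σ.symm) ∈ W}, ?_, ?_⟩
  · have : (fun v => ((fun v => (f v).map σ) v).map σ.symm) = f := by
      funext v
      cases hv : f v <;> simp [hv]
    show (fun v => ((fun v => (f v).map σ) v).map σ.symm) ∈ W
    rw [this]
    exact hf
  · intro g hg
    set g' : V → Option ℕ := fun v => (g v).map σ.symm with hg'
    have hσ' : ∀ c, σ.symm c < k ↔ c < k := by
      intro c
      have := hσ (σ.symm c)
      rw [Equiv.apply_symm_apply] at this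
      exact this.symm
    have hnone : ∀ v, g' v = none ↔ g v = none := by
      intro v
      simp [hg']
    have hsome : ∀ v c, g' v = some (σ.symm c) ↔ g v = some c := by
      intro v c
      simp only [hg']
      cases hv : g v <;> simp
    have hsome' : ∀ v c, g' v = some c ↔ g v = some (σ c) := by
      intro v c
      rw [← hsome v (σ c), Equiv.symm_apply_apply]
    have hupd : ∀ v c, (fun w => (Function.update g v (some c) w).map σ.symm)
        = Function.update g' v (some (σ.symm c)) := by
      intro v c
      funext w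
      by_cases hw : w = v
      · subst hw; simp
      · rw [Function.update_of_ne hw, Function.update_of_ne hw]
    have hcol : (Finset.univ.filter (fun v => g v ≠ none))
        = (Finset.univ.filter (fun v => g' v ≠ none)) := by
      ext v
      simp only [mem_filter, mem_univ, true_and, ne_eq, hnone]
    obtain ⟨h1, h2, h3⟩ := hW g' hg
    refine ⟨?_, ?_, ?_⟩
    · intro hno v
      have := h1 (by
        rintro ⟨v, c, a, b, d⟩
        exact hno ⟨v, σ c, (hnone v).1 a, (hσ c).2 b, fun w hw => by
          rw [ne_eq, ← hsome']; exact d w hw⟩) v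
      rw [ne_eq, hnone] at this
      exact this
    · intro he hex
      rw [hcol] at he
      obtain ⟨v, c, a, b, d⟩ := hex
      obtain ⟨v', c', a', b', d', e'⟩ := h2 he ⟨v, σ.symm c, (hnone v).2 a, (hσ' c).2 b,
        fun w hw => by rw [ne_eq, hsome]; exact d w hw⟩
      refine ⟨v', σ c', (hnone v').1 a', (hσ c').2 b', fun w hw => ?_, ?_⟩
      · rw [ne_eq, ← hsome']; exact d' w hw
      · show (fun w => (Function.update g v' (some (σ c')) w).map σ.symm) ∈ W
        rw [hupd, Equiv.symm_apply_apply]
        exact e'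
    · intro he v c a b d
      rw [hcol] at he
      show (fun w => (Function.update g v (some c) w).map σ.symm) ∈ W
      rw [hupd]
      exact h3 he v (σ.symm c) ((hnone v).2 a) ((hσ' c).2 b)
        (fun w hw => by rw [ne_eq, hsome]; exact d w hw)

end general

/-! ### The graph -/

section graph

variable {V : Type} [Fintype V] [DecidableEq V]

/-- the vertices: `G` and `k + 2` crowns with `k + 2` pairs each -/
abbrev U (V : Type) (k : ℕ) : Type := V ⊕ (Fin (k + 2) × Fin (k + 2) × Bool)

/-- adjacency -/
def adjH (G : SimpleGraph V) (r : V) (k : ℕ) : U V k → U V k → Prop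
  | .inl u, .inl v => G.Adj u v
  | .inl u, .inr p => u = r ∧ p.2.1 = 0 ∧ p.2.2 = false
  | .inr p, .inl u => u = r ∧ p.2.1 = 0 ∧ p.2.2 = false
  | .inr p, .inr q => p.1 = q.1 ∧ p.2.1 ≠ q.2.1 ∧ p.2.2 ≠ q.2.2

/-- the graph with the crowns -/
def H (G : SimpleGraph V) (r : V) (k : ℕ) : SimpleGraph (U V k) where
  Adj := adjH G r k
  symm := ⟨by
    rintro (u | p) (v | q) h
    · exact G.symm.symm _ _ h
    · exact h
    · exact h
    · exact ⟨h.1.symm, h.2.1.symm, h.2.2.symm⟩⟩
  loopless := ⟨by
    rintro (u | p) h
    · exact G.loopless.irrefl _ h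
    · exact h.2.1 rfl⟩

variable {G : SimpleGraph V} {r : V} {k : ℕ}

theorem adj_ll {u v : V} : (H G r k).Adj (.inl u) (.inl v) ↔ G.Adj u v := Iff.rfl

theorem adj_lr {u : V} {p : Fin (k + 2) × Fin (k + 2) × Bool} :
    (H G r k).Adj (.inl u) (.inr p) ↔ u = r ∧ p.2.1 = 0 ∧ p.2.2 = false := Iff.rfl

theorem adj_rl {u : V} {p : Fin (k + 2) × Fin (k + 2) × Bool} :
    (H G r k).Adj (.inr p) (.inl u) ↔ u = r ∧ p.2.1 = 0 ∧ p.2.2 = false := Iff.rfl

theorem adj_rr {p q : Fin (k + 2) × Fin (k + 2) × Bool} :
    (H G r k).Adj (.inr p) (.inr q) ↔ p.1 = q.1 ∧ p.2.1 ≠ q.2.1 ∧ p.2.2 ≠ q.2.2 := Iff.rfl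

theorem ncol_sum {A B : Type} [Fintype A] [Fintype B] (F : A ⊕ B → Option ℕ) :
    ncol F = ncol (fun a => F (.inl a)) + ncol (fun b => F (.inr b)) := by
  unfold ncol
  rw [Finset.card_filter, Finset.card_filter, Finset.card_filter, Fintype.sum_sum_type]

theorem upd_inl_inl (F : U V k → Option ℕ) (w : V) (c : Option ℕ) :
    (fun v => Function.update F (.inl w) c (.inl v))
      = Function.update (fun v => F (.inl v)) w c := by
  funext v
  by_cases h : v = w
  · subst h; simp
  · rw [Function.update_of_ne h, Function.update_of_ne (by simpa using h)]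

theorem upd_inr_inl (F : U V k → Option ℕ) (p : Fin (k + 2) × Fin (k + 2) × Bool)
    (c : Option ℕ) :
    (fun v => Function.update F (.inr p) c (.inl v)) = fun v => F (.inl v) := by
  funext v
  rw [Function.update_of_ne (by simp)]

theorem upd_inl_inr (F : U V k → Option ℕ) (w : V) (c : Option ℕ) :
    (fun p => Function.update F (.inl w) c (.inr p)) = fun p => F (.inr p) := by
  funext v
  rw [Function.update_of_ne (by simp)]

theorem upd_inr_inr (F : U V k → Option ℕ) (q : Fin (k + 2) × Fin (k + 2) × Bool)
    (c : Option ℕ) :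
    (fun p => Function.update F (.inr q) c (.inr p))
      = Function.update (fun p => F (.inr p)) q c := by
  funext v
  by_cases h : v = q
  · subst h; simp
  · rw [Function.update_of_ne h, Function.update_of_ne (by simpa using h)]

end graph

end Pool.Agent.Lib_helper74.CG.Crown
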