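import Mathlib.Data.Nat.Notation

set_option autoImplicit false

/-!
# Certificate checker for the colouring game

All functions are written with recursors and binary operations of `Nat`, so that the kernel
evaluates them quickly.  A position is given by the mask `U` of the uncoloured vertices and the list
of the masks `c_j` of the uncoloured vertices that may still get colour `j`, sorted in descending
order.
-/

namespace Pool.Agent.Lib_helper74.CG

/-- list of vertices: `b` the bit of the vertex, `nb` its complement, `na` the complement of the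
closed neighbourhood, `a` the neighbourhood -/
inductive VL : Type
  | nil : VL
  | cons (b nb na a : ℕ) (t : VL) : VL

/-- search trees -/
inductive Tr : Type
  | nil : Tr
  | leaf (key mv : ℕ) : Tr
  | node (key : ℕ) (l r : Tr) : Tr

noncomputable section

/-- insertion into a list in descending order -/
def ins (x : ℕ) (l : List ℕ) : List ℕ :=
  List.rec (motive := fun _ => List ℕ) (List.cons x List.nil)
    (fun y t ih => Bool.rec (motive := fun _ => List ℕ) (List.cons y ih)
      (List.cons x (List.cons y t)) (Nat.ble y x)) l

/-- remove a vertex from all columns of `l` and insert the columns into `acc` -/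
def srt (nb : ℕ) (l acc : List ℕ) : List ℕ :=
  List.rec (motive := fun _ => List ℕ) acc (fun y _ ih => ins (Nat.land y nb) ih) l

/-- pack a list of numbers below `2^16` -/
def pack (l : List ℕ) : ℕ :=
  List.rec (motive := fun _ => ℕ) 0 (fun y _ ih => Nat.add y (Nat.mul 65536 ih)) l

/-- unpack `m` numbers -/
def unpk (m : ℕ) : ℕ → List ℕ :=
  Nat.rec (motive := fun _ => ℕ → List ℕ) (fun _ => List.nil)
    (fun _ ih key => List.cons (Nat.land key 65535) (ih (Nat.shiftRight key 16))) m

/-- membership in a search tree -/
def Tr.mem (q : ℕ) (t : Tr) : Bool :=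
  Tr.rec (motive := fun _ => Bool) false (fun key _ => Nat.beq q key)
    (fun key _ _ ihl ihr => Bool.rec (motive := fun _ => Bool) ihr ihl (Nat.ble q key)) t

/-- check all leaves of a tree -/
def Tr.chk (P : ℕ → ℕ → Bool) (t : Tr) : Bool :=
  Tr.rec (motive := fun _ => Bool) true (fun key mv => P key mv)
    (fun _ _ _ ihl ihr => Bool.rec (motive := fun _ => Bool) false ihr ihl) t

/-- union of the columns -/
def orL (l : List ℕ) : ℕ :=
  List.rec (motive := fun _ => ℕ) 0 (fun y _ ih => Nat.lor y ih) l

/-- more columns contain the bit `b` than `x` has bits -/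
def gtb (b : ℕ) (l : List ℕ) : ℕ → Bool :=
  List.rec (motive := fun _ => ℕ → Bool) (fun _ => false)
    (fun y _ ih x => Bool.rec (motive := fun _ => Bool)
      (Bool.rec (motive := fun _ => Bool) (ih (Nat.land x (Nat.sub x 1))) true (Nat.beq x 0))
      (ih x) (Nat.beq (Nat.land y b) 0)) l

/-- every uncoloured vertex has more available colours than uncoloured neighbours -/
def safe (vs : VL) (U : ℕ) (l : List ℕ) : Bool :=
  VL.rec (motive := fun _ => Bool) true
    (fun b _ _ a _ ih => Bool.rec (motive := fun _ => Bool)
      (Bool.rec (motive := fun _ => Bool) false ih (gtb b l (Nat.land a U)))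
      ih (Nat.beq (Nat.land U b) 0)) vs

/-- all children through the vertex `(b, nb, na)` -/
def chC (P : ℕ → List ℕ → Bool) (U b nb na : ℕ) (l : List ℕ) : List ℕ → ℕ → Bool :=
  List.rec (motive := fun _ => List ℕ → ℕ → Bool) (fun _ _ => true)
    (fun x t ih pre last => Bool.rec (motive := fun _ => Bool)
      (Bool.rec (motive := fun _ => Bool)
        (Bool.rec (motive := fun _ => Bool) false (ih (List.cons x pre) x)
          (P (Nat.land U nb) (srt nb pre (srt nb t (List.cons (Nat.land x na) List.nil)))))
        (ih (List.cons x pre) x) (Nat.beq x last))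
      (ih (List.cons x pre) last) (Nat.beq (Nat.land x b) 0)) l

/-- all children of a position satisfy `P` -/
def allCh (P : ℕ → List ℕ → Bool) (vs : VL) (U : ℕ) (l : List ℕ) : Bool :=
  VL.rec (motive := fun _ => Bool) true
    (fun b nb na _ _ ih => Bool.rec (motive := fun _ => Bool)
      (Bool.rec (motive := fun _ => Bool) false ih (chC P U b nb na l List.nil 0))
      ih (Nat.beq (Nat.land U b) 0)) vs

/-- `P` holds for the child in which the vertex with bit `bv` gets the colour of column `j` -/
def exC (P : ℕ → List ℕ → Bool) (U b nb na : ℕ) (l : List ℕ) : List ℕ → ℕ → Bool :=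
  List.rec (motive := fun _ => List ℕ → ℕ → Bool) (fun _ _ => false)
    (fun x t ih pre j => Bool.rec (motive := fun _ => Bool)
      (ih (List.cons x pre) (Nat.sub j 1))
      (Bool.rec (motive := fun _ => Bool)
        (P (Nat.land U nb) (srt nb pre (srt nb t (List.cons (Nat.land x na) List.nil))))
        false (Nat.beq (Nat.land x b) 0))
      (Nat.beq j 0)) l

/-- `P` holds for the child given by the move `bv + 2^16 j` -/
def exCh (P : ℕ → List ℕ → Bool) (vs : VL) (U : ℕ) (l : List ℕ) (bv j : ℕ) : Bool :=
  VL.rec (motive := fun _ => Bool) false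
    (fun b nb na _ _ ih => Bool.rec (motive := fun _ => Bool) ih
      (exC P U b nb na l List.nil j) (Nat.beq b bv)) vs

/-- the position after Alice's move, Bob to move -/
def chkQA (vs : VL) (Tn : Tr) (U : ℕ) (l : List ℕ) : Bool :=
  Bool.rec (motive := fun _ => Bool)
    (Bool.rec (motive := fun _ => Bool)
      (allCh (fun U2 l2 => Bool.rec (motive := fun _ => Bool) (safe vs U2 l2) true
        (Tr.mem (pack (List.cons U2 l2)) Tn)) vs U l)
      false (Nat.beq (orL l) 0))
    true (safe vs U l)

/-- a position with Alice to move in the certificate for Alice -/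
def chkPA (K : ℕ) (vs : VL) (Tn : Tr) (key mv : ℕ) : Bool :=
  exCh (chkQA vs Tn) vs (Nat.land key 65535) (unpk K (Nat.shiftRight key 16))
    (Nat.land mv 65535) (Nat.shiftRight mv 16)

/-- masks of the vertices in at least one and at least two columns -/
def otL (l : List ℕ) : ℕ → ℕ → (ℕ → ℕ → Bool) → Bool :=
  List.rec (motive := fun _ => ℕ → ℕ → (ℕ → ℕ → Bool) → Bool) (fun o t P => P o t)
    (fun y _ ih o t P => ih (Nat.lor o y) (Nat.lor t (Nat.land o y)) P) l

/-- some column contains `b` and meets `a` -/
def anyC (b a : ℕ) (l : List ℕ) : Bool :=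
  List.rec (motive := fun _ => Bool) false
    (fun x _ ih => Bool.rec (motive := fun _ => Bool)
      (Bool.rec (motive := fun _ => Bool) true ih (Nat.beq (Nat.land x a) 0))
      ih (Nat.beq (Nat.land x b) 0)) l

/-- some vertex outside the mask `t` lies in a column that contains a neighbour -/
def kill (U t : ℕ) (l : List ℕ) (vs : VL) : Bool :=
  VL.rec (motive := fun _ => Bool) false
    (fun b _ _ a _ ih => Bool.rec (motive := fun _ => Bool)
      (Bool.rec (motive := fun _ => Bool) ih
        (Bool.rec (motive := fun _ => Bool) ih true (anyC b a l))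
        (Nat.beq (Nat.land t b) 0))
      ih (Nat.beq (Nat.land U b) 0)) vs

/-- Bob to move wins at once -/
def lost (vs : VL) (U : ℕ) (l : List ℕ) : Bool :=
  otL l 0 0 (fun o t => Bool.rec (motive := fun _ => Bool) true (kill U t l vs)
    (Nat.beq (Nat.land U o) U))

/-- the position after Bob's move, Alice to move -/
def chkQB (vs : VL) (Tn : Tr) (U : ℕ) (l : List ℕ) : Bool :=
  Bool.rec (motive := fun _ => Bool)
    (allCh (fun U2 l2 => Bool.rec (motive := fun _ => Bool)
        (Tr.mem (pack (List.cons U2 l2)) Tn) true (lost vs U2 l2)) vs U l)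
    false (Nat.beq U 0)

/-- a position with Bob to move in the certificate for Bob -/
def chkPB (K : ℕ) (vs : VL) (Tn : Tr) (key mv : ℕ) : Bool :=
  exCh (chkQB vs Tn) vs (Nat.land key 65535) (unpk K (Nat.shiftRight key 16))
    (Nat.land mv 65535) (Nat.shiftRight mv 16)

end

end Pool.Agent.Lib_helper74.CG
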