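import Mathlib
import Pool.Agent.Lib_helper74.CG.Sound

set_option autoImplicit false

namespace Pool.Agent.Lib_helper74.CG

/-- a graph with a win for Alice with `k` colours and for Bob with `k + 1` colours refutes
monotonicity -/
theorem disproof {n : ℕ} (G : SimpleGraph (Fin n)) (k : ℕ)
    (hA : AWin G k (fun _ => none)) (hB : ¬ AWin G (k + 1) (fun _ => none)) :
    ¬ (∀ (V : Type) [Fintype V] [DecidableEq V] (G : SimpleGraph V) (k : ℕ),
      (∃ W : Set (V → Option ℕ), (fun _ => none : V → Option ℕ) ∈ W ∧
        ∀ f ∈ W,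
          ((¬ ∃ v c, f v = none ∧ c < k ∧ ∀ w, G.Adj v w → f w ≠ some c) →
              ∀ v, f v ≠ none) ∧
          (Even (Finset.univ.filter (fun v => f v ≠ none)).card →
              (∃ v c, f v = none ∧ c < k ∧ ∀ w, G.Adj v w → f w ≠ some c) →
              ∃ v c, f v = none ∧ c < k ∧ (∀ w, G.Adj v w → f w ≠ some c) ∧
                Function.update f v (some c) ∈ W) ∧
          (¬ Even (Finset.univ.filter (fun v => f v ≠ none)).card →
              ∀ v c, f v = none → c < k → (∀ w, G.Adj v w → f w ≠ some c) →
                Function.update f v (some c) ∈ W)) →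
      (∃ W : Set (V → Option ℕ), (fun _ => none : V → Option ℕ) ∈ W ∧
        ∀ f ∈ W,
          ((¬ ∃ v c, f v = none ∧ c < k + 1 ∧ ∀ w, G.Adj v w → f w ≠ some c) →
              ∀ v, f v ≠ none) ∧
          (Even (Finset.univ.filter (fun v => f v ≠ none)).card →
              (∃ v c, f v = none ∧ c < k + 1 ∧ ∀ w, G.Adj v w → f w ≠ some c) →
              ∃ v c, f v = none ∧ c < k + 1 ∧ (∀ w, G.Adj v w → f w ≠ some c) ∧
                Function.update f v (some c) ∈ W) ∧
          (¬ Even (Finset.univ.filter (fun v => f v ≠ none)).card →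
              ∀ v c, f v = none → c < k + 1 → (∀ w, G.Adj v w → f w ≠ some c) →
                Function.update f v (some c) ∈ W))) := by
  intro h
  exact hB (h (Fin n) G k hA)

/-- the graph given by a list of masks -/
def grM (n : ℕ) (A : List ℕ) (hs : ∀ u v : Fin n, (A.getD u 0).testBit v = (A.getD v 0).testBit u)
    (hi : ∀ u : Fin n, (A.getD u 0).testBit u = false) : SimpleGraph (Fin n) where
  Adj u v := (A.getD u 0).testBit v = true
  symm := ⟨fun u v h => by rw [hs v u]; exact h⟩
  loopless := ⟨fun u h => by rw [hi u] at h; exact absurd h (by simp)⟩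

instance (n : ℕ) (A : List ℕ) (hs) (hi) : DecidableRel (grM n A hs hi).Adj := fun u v =>
  inferInstanceAs (Decidable ((A.getD u 0).testBit v = true))

end Pool.Agent.Lib_helper74.CG
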