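import Pool.Agent.Lib_helper74.CG.Crown

set_option autoImplicit false
set_option linter.unusedSectionVars false
set_option linter.unusedSimpArgs false

/-!
# The crown gadget: Alice wins with `k` colours
-/

namespace Pool.Agent.Lib_helper74.CG.Crown

open Finset Pool.Agent.Lib_helper74.CG

variable {V : Type} [Fintype V] [DecidableEq V] {G : SimpleGraph V} {r : V} {k : ℕ}

/-- every uncoloured vertex of crown `i` is secure -/
def Sec (G : SimpleGraph V) (r : V) (k : ℕ) (F : U V k → Option ℕ) (i : Fin (k + 2)) : Prop :=
  ∀ p, F (.inr (i, p)) = none → Secure (H G r k) k F (.inr (i, p))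

/-- the good states of crown `i` -/
def Good (G : SimpleGraph V) (r : V) (k : ℕ) (F : U V k → Option ℕ) (i : Fin (k + 2)) : Prop :=
  (∀ p, F (.inr (i, p)) = none) ∨
  (F (.inr (i, 0, true)) = some 0 ∧ ∀ p, p ≠ (0, true) → F (.inr (i, p)) = none) ∨
  (∃ j, j ≠ 0 ∧ ∃ d, d ≠ 0 ∧ F (.inr (i, j, false)) = some 0 ∧ F (.inr (i, j, true)) = some d ∧
    ∀ p, p ≠ (j, false) → p ≠ (j, true) → F (.inr (i, p)) = none) ∨
  Sec G r k F i

/-- a pair with two different colours makes the crown secure -/
theorem pairSec {F : U V k → Option ℕ} (hL : LegalPos (H G r k) k F)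
    (hr : F (.inl r) = some 0) {i j : Fin (k + 2)} {d c : ℕ}
    (hx : F (.inr (i, j, false)) = some d) (hy : F (.inr (i, j, true)) = some c) (hdc : d ≠ c)
    (h0 : F (.inr (i, 0, false)) = none → d ≠ 0) : Sec G r k F i := by
  rintro ⟨a, s⟩ hp
  have hda := hL.1 _ _ hx
  have hca := hL.1 _ _ hy
  have haj : a ≠ j := by
    rintro rfl
    cases s with
    | false => rw [hx] at hp; exact absurd hp (by simp)
    | true => rw [hy] at hp; exact absurd hp (by simp)
  cases s with
  | false =>
    refine ⟨d, hda, ?_⟩
    rintro (u | ⟨i', b, t⟩) hw
    · rw [adj_rl] at hw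
      obtain ⟨rfl, ha0, -⟩ := hw
      simp only at ha0
      subst ha0
      rw [hr]
      refine ⟨?_, fun h => absurd h (by simp)⟩
      intro he
      rw [Option.some.injEq] at he
      exact h0 hp he.symm
    · rw [adj_rr] at hw
      obtain ⟨h1, h2, h3⟩ := hw
      simp only at h1 h2 h3
      subst h1
      have ht : t = true := by cases t <;> simp_all
      subst ht
      by_cases hbj : b = j
      · subst hbj
        rw [hy]
        refine ⟨?_, fun h => absurd h (by simp)⟩
        intro he
        rw [Option.some.injEq] at he
        exact hdc he.symm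
      · have hadj : (H G r k).Adj (.inr (i, j, false)) (.inr (i, b, true)) :=
          ⟨rfl, fun h => hbj h.symm, by simp⟩
        exact ⟨hL.2 _ _ _ hadj hx, fun _ => ⟨_, hadj.symm, hx⟩⟩
  | true =>
    refine ⟨c, hca, ?_⟩
    rintro (u | ⟨i', b, t⟩) hw
    · rw [adj_rl] at hw
      exact absurd hw.2.2 (by simp)
    · rw [adj_rr] at hw
      obtain ⟨h1, h2, h3⟩ := hw
      simp only at h1 h2 h3
      subst h1
      have ht : t = false := by cases t <;> simp_all
      subst ht
      by_cases hbj : b = j
      · subst hbj
        rw [hx]
        refine ⟨?_, fun h => absurd h (by simp)⟩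
        intro he
        rw [Option.some.injEq] at he
        exact hdc he
      · have hadj : (H G r k).Adj (.inr (i, j, true)) (.inr (i, b, false)) :=
          ⟨rfl, fun h => hbj h.symm, by simp⟩
        exact ⟨hL.2 _ _ _ hadj hy, fun _ => ⟨_, hadj.symm, hy⟩⟩

/-- security survives all moves -/
theorem Sec.update {F : U V k → Option ℕ} {i : Fin (k + 2)} (h : Sec G r k F i) {v : U V k}
    {c : ℕ} (hl : Legal (H G r k) k F v c) : Sec G r k (Function.update F v (some c)) i := by
  intro p hp
  have hne : (.inr (i, p) : U V k) ≠ v := by
    intro he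
    rw [he, Function.update_self] at hp
    exact absurd hp (by simp)
  rw [Function.update_of_ne hne] at hp
  exact (h p hp).update hl

/-- goodness survives moves outside the crown -/
theorem Good.update {F : U V k → Option ℕ} {i : Fin (k + 2)} (h : Good G r k F i) {v : U V k}
    {c : ℕ} (hl : Legal (H G r k) k F v c) (hv : ∀ p, (.inr (i, p) : U V k) ≠ v) :
    Good G r k (Function.update F v (some c)) i := by
  have hu : ∀ p, Function.update F v (some c) (.inr (i, p)) = F (.inr (i, p)) :=
    fun p => Function.update_of_ne (hv p) _ _
  rcases h with h | h | h | h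
  · left; intro p; rw [hu]; exact h p
  · right; left
    exact ⟨by rw [hu]; exact h.1, fun p hp => by rw [hu]; exact h.2 p hp⟩
  · right; right; left
    obtain ⟨j, hj, d, hd, h1, h2, h3⟩ := h
    exact ⟨j, hj, d, hd, by rw [hu]; exact h1, by rw [hu]; exact h2,
      fun p hp hp' => by rw [hu]; exact h3 p hp hp'⟩
  · right; right; right
    exact h.update hl

/-- legality in a crown, left side -/
theorem legal_left {F : U V k → Option ℕ} (hr : F (.inl r) = some 0) {i a : Fin (k + 2)} {c : ℕ}
    (hF : F (.inr (i, a, false)) = none) (hc : c < k) (h0 : a = 0 → c ≠ 0)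
    (h : ∀ b, b ≠ a → F (.inr (i, b, true)) ≠ some c) :
    Legal (H G r k) k F (.inr (i, a, false)) c := by
  refine ⟨hF, hc, ?_⟩
  rintro (u | ⟨i', b, t⟩) hw
  · rw [adj_rl] at hw
    obtain ⟨rfl, ha0, -⟩ := hw
    rw [hr]
    intro he
    rw [Option.some.injEq] at he
    exact h0 ha0 he.symm
  · rw [adj_rr] at hw
    obtain ⟨h1, h2, h3⟩ := hw
    simp only at h1 h2 h3
    subst h1
    have ht : t = true := by cases t <;> simp_all
    subst ht
    exact h b (fun h => h2 h.symm)

/-- legality in a crown, right side -/
theorem legal_right {F : U V k → Option ℕ} {i a : Fin (k + 2)} {c : ℕ}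
    (hF : F (.inr (i, a, true)) = none) (hc : c < k)
    (h : ∀ b, b ≠ a → F (.inr (i, b, false)) ≠ some c) :
    Legal (H G r k) k F (.inr (i, a, true)) c := by
  refine ⟨hF, hc, ?_⟩
  rintro (u | ⟨i', b, t⟩) hw
  · rw [adj_rl] at hw
    exact absurd hw.2.2 (by simp)
  · rw [adj_rr] at hw
    obtain ⟨h1, h2, h3⟩ := hw
    simp only at h1 h2 h3
    subst h1
    have ht : t = false := by cases t <;> simp_all
    subst ht
    exact h b (fun h => h2 h.symm)

/-- three colours leave one free when `k ≥ 4` -/
theorem exists_col (hk : 4 ≤ k) (a b c : ℕ) : ∃ e, e < k ∧ e ≠ a ∧ e ≠ b ∧ e ≠ c := by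
  by_contra hcon
  push Not at hcon
  have h0 := hcon 0 (by omega)
  have h1 := hcon 1 (by omega)
  have h2 := hcon 2 (by omega)
  have h3 := hcon 3 (by omega)
  omega

/-- Alice can move in a good crown that is not full -/
theorem extra_crown (hk : 4 ≤ k) {F : U V k → Option ℕ} (hL : LegalPos (H G r k) k F)
    (hr : F (.inl r) = some 0) {i : Fin (k + 2)} (hg : Good G r k F i)
    {p : Fin (k + 2) × Bool} (hp : F (.inr (i, p)) = none) :
    ∃ q c, Legal (H G r k) k F (.inr (i, q)) c ∧
      Good G r k (Function.update F (.inr (i, q)) (some c)) i := by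
  rcases hg with h | h | h | h
  · -- fresh
    refine ⟨(0, true), 0, legal_right (h _) (by omega) (fun b _ => by rw [h]; simp), ?_⟩
    right; left
    refine ⟨Function.update_self _ _ _, fun q hq => ?_⟩
    rw [Function.update_of_ne (by simpa using hq)]
    exact h q
  · have hx0 : F (.inr (i, 0, false)) = none := h.2 _ (by simp)
    have hl : Legal (H G r k) k F (.inr (i, 0, false)) 1 := by
      refine legal_left hr hx0 (by omega) (by simp) (fun b hb => ?_)
      rw [h.2 _ (by simpa using hb)]
      simp
    refine ⟨(0, false), 1, hl, ?_⟩
    right; right; right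
    refine pairSec (j := 0) (d := 1) (c := 0) (hL.update hl) ?_ (Function.update_self _ _ _) ?_
      (by simp) ?_
    · rw [Function.update_of_ne (by simp)]; exact hr
    · rw [Function.update_of_ne (by simp)]; exact h.1
    · rw [Function.update_self]
      intro h
      exact absurd h (by simp)
  · obtain ⟨j, hj, d, hd, h1, h2, h3⟩ := h
    obtain ⟨e, he, he0, hed, -⟩ := exists_col hk 0 d 0
    have hx0 : F (.inr (i, 0, false)) = none :=
      h3 _ (by simpa using hj.symm) (by simp)
    have hl : Legal (H G r k) k F (.inr (i, 0, false)) e := by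
      refine legal_left hr hx0 he (fun _ => he0) (fun b hb => ?_)
      by_cases hbj : b = j
      · subst hbj
        rw [h2]
        intro hcon
        rw [Option.some.injEq] at hcon
        exact hed hcon.symm
      · rw [h3 _ (by simp) (by simpa using hbj)]
        simp
    refine ⟨(0, false), e, hl, ?_⟩
    right; right; right
    refine pairSec (j := j) (d := 0) (c := d) (hL.update hl) ?_ ?_ ?_ hd.symm ?_
    · rw [Function.update_of_ne (by simp)]; exact hr
    · rw [Function.update_of_ne (by simpa using hj)]; exact h1
    · rw [Function.update_of_ne (by simp)]; exact h2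
    · rw [Function.update_self]
      intro h
      exact absurd h (by simp)
  · obtain ⟨c, hc⟩ := (h p hp).legal hp
    exact ⟨p, c, hc, Or.inr (Or.inr (Or.inr (h.update hc)))⟩

/-- Alice's reply to a move of Bob in a good crown -/
theorem reply_crown (hk : 4 ≤ k) {F : U V k → Option ℕ} (hL : LegalPos (H G r k) k F)
    (hr : F (.inl r) = some 0) {i : Fin (k + 2)} (hg : Good G r k F i)
    {p : Fin (k + 2) × Bool} {c : ℕ} (hl : Legal (H G r k) k F (.inr (i, p)) c) :
    Sec G r k (Function.update F (.inr (i, p)) (some c)) i ∨
    ∃ q e, Legal (H G r k) k (Function.update F (.inr (i, p)) (some c)) (.inr (i, q)) e ∧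
      Good G r k (Function.update (Function.update F (.inr (i, p)) (some c))
        (.inr (i, q)) (some e)) i := by
  set F1 := Function.update F (.inr (i, p)) (some c) with hF1
  have hL1 : LegalPos (H G r k) k F1 := hL.update hl
  have hr1 : F1 (.inl r) = some 0 := by
    rw [hF1, Function.update_of_ne (by simp)]; exact hr
  have hself : F1 (.inr (i, p)) = some c := Function.update_self _ _ _
  have hoth : ∀ q, q ≠ p → F1 (.inr (i, q)) = F (.inr (i, q)) := by
    intro q hq
    rw [hF1, Function.update_of_ne (by simpa using hq)]
  -- completing a pair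
  have hcomp : ∀ (q : Fin (k + 2) × Bool) (e : ℕ) (_ : Legal (H G r k) k F1 (.inr (i, q)) e)
      (j : Fin (k + 2)) (d' c' : ℕ),
      Function.update F1 (.inr (i, q)) (some e) (.inr (i, j, false)) = some d' →
      Function.update F1 (.inr (i, q)) (some e) (.inr (i, j, true)) = some c' → d' ≠ c' →
      (Function.update F1 (.inr (i, q)) (some e) (.inr (i, 0, false)) = none → d' ≠ 0) →
      ∃ q e, Legal (H G r k) k F1 (.inr (i, q)) e ∧
      Good G r k (Function.update F1 (.inr (i, q)) (some e)) i := by
    intro q e hle j d' c' h1 h2 h3 h4
    refine ⟨q, e, hle, Or.inr (Or.inr (Or.inr ?_))⟩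
    refine pairSec (hL1.update hle) ?_ h1 h2 h3 h4
    rw [Function.update_of_ne (by simp)]
    exact hr1
  rcases hg with h | h | h | h
  · -- fresh crown
    right
    obtain ⟨j, s⟩ := p
    have hnone : ∀ q, q ≠ (j, s) → F1 (.inr (i, q)) = none := fun q hq => by
      rw [hoth q hq]; exact h q
    cases s with
    | false =>
      by_cases hc0 : c = 0
      · subst hc0
        have hj : j ≠ 0 := by
          rintro rfl
          exact hl.2.2 (.inl r) ⟨rfl, rfl, rfl⟩ hr
        have hle : Legal (H G r k) k F1 (.inr (i, j, true)) 1 := by
          refine legal_right (hnone _ (by simp)) (by omega) (fun b hb => ?_)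
          rw [hnone _ (by simpa using hb)]
          simp
        refine ⟨(j, true), 1, hle, ?_⟩
        right; right; left
        refine ⟨j, hj, 1, by simp, ?_, Function.update_self _ _ _, ?_⟩
        · rw [Function.update_of_ne (by simp)]; exact hself
        · intro q hq1 hq2
          rw [Function.update_of_ne (by simpa using hq2)]
          exact hnone q hq1
      · obtain ⟨e, he, hec, -, -⟩ := exists_col hk c 0 0
        have hle : Legal (H G r k) k F1 (.inr (i, j, true)) e := by
          refine legal_right (hnone _ (by simp)) he (fun b hb => ?_)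
          rw [hnone _ (by simpa using hb)]
          simp
        refine hcomp (j, true) e hle j c e ?_ (Function.update_self _ _ _) (fun h => hec h.symm)
          (fun _ => hc0)
        rw [Function.update_of_ne (by simp)]; exact hself
    | true =>
      obtain ⟨e, he, hec, he0, -⟩ := exists_col hk c 0 0
      have hle : Legal (H G r k) k F1 (.inr (i, j, false)) e := by
        refine legal_left hr1 (hnone _ (by simp)) he (fun _ => he0) (fun b hb => ?_)
        rw [hnone _ (by simpa using hb)]
        simp
      refine hcomp (j, false) e hle j e c (Function.update_self _ _ _) ?_ hec (fun _ => he0)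
      rw [Function.update_of_ne (by simp)]; exact hself
  · -- only `y_0 = 0`
    obtain ⟨j, s⟩ := p
    have hy0 : (j, s) ≠ (0, true) := by
      intro he
      have := hl.1
      rw [he, h.1] at this
      exact absurd this (by simp)
    have hy01 : F1 (.inr (i, 0, true)) = some 0 := by
      rw [hoth _ hy0.symm]; exact h.1
    have hnone : ∀ q, q ≠ (j, s) → q ≠ (0, true) → F1 (.inr (i, q)) = none := fun q hq hq' => by
      rw [hoth q hq]; exact h.2 q hq'
    cases s with
    | false =>
      by_cases hj : j = 0
      · subst hj
        left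
        refine pairSec hL1 hr1 hself hy01 ?_ ?_
        · rintro rfl
          exact hl.2.2 (.inl r) ⟨rfl, rfl, rfl⟩ hr
        · intro hcon
          rw [hself] at hcon
          exact absurd hcon (by simp)
      · right
        have hc0 : c ≠ 0 := by
          rintro rfl
          exact hl.2.2 (.inr (i, 0, true)) ⟨rfl, hj, by simp⟩ h.1
        have hle : Legal (H G r k) k F1 (.inr (i, j, true)) 0 := by
          refine legal_right (hnone _ (by simp) (by simpa using hj)) (by omega) (fun b hb => ?_)
          rw [hnone _ (by simpa using hb) (by simp)]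
          simp
        refine hcomp (j, true) 0 hle j c 0 ?_ (Function.update_self _ _ _) hc0 (fun _ => hc0)
        rw [Function.update_of_ne (by simp)]; exact hself
    | true =>
      right
      have hj : j ≠ 0 := by
        rintro rfl
        exact hy0 rfl
      obtain ⟨e, he, hec, he0, -⟩ := exists_col hk c 0 0
      have hle : Legal (H G r k) k F1 (.inr (i, 0, false)) e := by
        refine legal_left hr1 (hnone _ (by simp) (by simp)) he (fun _ => he0) (fun b hb => ?_)
        by_cases hbj : b = j
        · subst hbj
          rw [hself]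
          intro hcon
          rw [Option.some.injEq] at hcon
          exact hec hcon.symm
        · rw [hnone _ (by simpa using hbj) (by simpa using hb)]
          simp
      refine hcomp (0, false) e hle 0 e 0 (Function.update_self _ _ _) ?_ he0 (fun _ => he0)
      rw [Function.update_of_ne (by simp)]; exact hy01
  · obtain ⟨j, hj, d, hd, h1, h2, h3⟩ := h
    obtain ⟨a, s⟩ := p
    have hne1 : (a, s) ≠ (j, false) := by
      intro he
      have := hl.1
      rw [he, h1] at this
      exact absurd this (by simp)
    have hne2 : (a, s) ≠ (j, true) := by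
      intro he
      have := hl.1
      rw [he, h2] at this
      exact absurd this (by simp)
    have h1' : F1 (.inr (i, j, false)) = some 0 := by rw [hoth _ hne1.symm]; exact h1
    have h2' : F1 (.inr (i, j, true)) = some d := by rw [hoth _ hne2.symm]; exact h2
    by_cases hx0 : (a, s) = (0, false)
    · left
      refine pairSec hL1 hr1 h1' h2' hd.symm ?_
      rw [← hx0, hself]
      intro hcon
      exact absurd hcon (by simp)
    · right
      obtain ⟨e, he, he0, hed, hec⟩ := exists_col hk 0 d c
      have hx0' : F1 (.inr (i, 0, false)) = none := by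
        rw [hoth _ (fun h => hx0 h.symm)]
        exact h3 _ (by simpa using hj.symm) (by simp)
      have hle : Legal (H G r k) k F1 (.inr (i, 0, false)) e := by
        refine legal_left hr1 hx0' he (fun _ => he0) (fun b hb => ?_)
        by_cases hbj : b = j
        · subst hbj
          rw [h2']
          intro hcon
          rw [Option.some.injEq] at hcon
          exact hed hcon.symm
        · by_cases hba : (b, true) = (a, s)
          · rw [hba, hself]
            intro hcon
            rw [Option.some.injEq] at hcon
            exact hec hcon.symm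
          · rw [hoth _ hba, h3 _ (by simp) (by simpa using hbj)]
            simp
      refine hcomp (0, false) e hle j 0 d ?_ ?_ hd.symm ?_
      · rw [Function.update_of_ne (by simpa using hj)]; exact h1'
      · rw [Function.update_of_ne (by simp)]; exact h2'
      · rw [Function.update_self]
        intro hcon
        exact absurd hcon (by simp)
  · left
    exact h.update hl

end Pool.Agent.Lib_helper74.CG.Crown
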