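import Pool.Agent.Lib_helper74.CG.CrownWinA

set_option autoImplicit false
set_option linter.unusedSectionVars false
set_option linter.unusedSimpArgs false

/-!
# The crown gadget: Bob wins with `k + 1` colours
-/

namespace Pool.Agent.Lib_helper74.CG.Crown

open Finset Pool.Agent.Lib_helper74.CG

variable {V : Type} [Fintype V] [DecidableEq V] {G : SimpleGraph V} {r : V} {k K : ℕ}

theorem even_unc_iff {A : Type} [Fintype A] [DecidableEq A] (F : A → Option ℕ)
    (h : Even (Fintype.card A)) (ho : ¬ Even (ncol F)) : ∃ a, F a = none := by
  by_contra hcon
  push Not at hcon
  rw [ncol_full hcon] at ho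
  exact ho h

/-- Bob's win in `G` is a win in `H` -/
theorem bob_main : ∀ F : U V k → Option ℕ, ¬ AWin G K (fun v => F (.inl v)) →
    F (.inl r) ≠ none → Even (ncol (fun p => F (.inr p))) → ¬ AWin (H G r k) K F := by
  intro F
  induction hm : Fintype.card (U V k) - ncol F using Nat.strong_induction_on generalizing F with
  | _ m ih =>
    intro hB hr he hA
    have hsum := ncol_sum F
    by_cases hev : Even (ncol F)
    · -- Alice to move
      have hevG : Even (ncol (fun v => F (.inl v))) := by
        rw [hsum, Nat.even_add] at hev
        exact hev.2 he
      rcases awin_alice hA hev with hfull | ⟨v, c, hl, hA1⟩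
      · exact hB (awin_of_full fun v => hfull (.inl v))
      · have hn1 := ncol_update (c := c) hl.1
        have hlt1 : ncol F < Fintype.card (U V k) := ncol_lt hl.1
        rcases v with v | p
        · have hvr : v ≠ r := by
            rintro rfl
            exact hr hl.1
          refine ih (Fintype.card (U V k) - ncol (Function.update F (.inl v) (some c)))
            (by omega) _ rfl ?_ ?_ ?_ hA1
          · rw [upd_inl_inl]
            intro h1
            exact hB (awin_of_move hevG (legal_of_inl hl) h1)
          · rw [Function.update_of_ne (by simpa using hvr.symm)]; exact hr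
          · rw [upd_inl_inr]; exact he
        · set F1 := Function.update F (.inr p) (some c) with hF1
          have ho1 : ¬ Even (ncol F1) := by
            rw [hn1, Nat.even_add_one]; exact fun h => h hev
          have hoc : ¬ Even (ncol (fun q => F1 (.inr q))) := by
            rw [hF1, upd_inr_inr, ncol_update (f := fun q => F (.inr q)) hl.1, Nat.even_add_one]
            exact fun h => h he
          obtain ⟨q, hq⟩ := even_unc_iff _ card_crowns hoc
          by_cases hex : ∃ c', Legal (H G r k) K F1 (.inr q) c'
          · obtain ⟨c', hl'⟩ := hex
            have hn2 := ncol_update (c := c') hl'.1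
            have hA2 := awin_bob hA1 ho1 hl'
            refine ih (Fintype.card (U V k) - ncol (Function.update F1 (.inr q) (some c')))
              (by omega) _ rfl ?_ ?_ ?_ hA2
            · rw [upd_inr_inl, hF1, upd_inr_inl]; exact hB
            · rw [Function.update_of_ne (by simp), hF1, Function.update_of_ne (by simp)]
              exact hr
            · rw [upd_inr_inr, ncol_update (f := fun q => F1 (.inr q)) hl'.1]
              exact Nat.even_add_one.2 hoc
          · push Not at hex
            exact not_awin_dead (dead_of_not_legal hq hex) hA1
    · -- Bob to move
      have hoG : ¬ Even (ncol (fun v => F (.inl v))) := by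
        intro h
        apply hev
        rw [hsum]
        exact h.add he
      have hBG : ∃ v c, Legal G K (fun v => F (.inl v)) v c ∧
          ¬ AWin G K (Function.update (fun v => F (.inl v)) v (some c)) ∨
          (F (.inl v) = none ∧ ∀ c, ¬ Legal G K (fun v => F (.inl v)) v c) := by
        by_contra hcon
        push Not at hcon
        apply hB
        refine awin_of_all hoG ?_ ?_
        · rintro ⟨v, hv⟩
          obtain ⟨c, hc⟩ := (hcon v 0).2 hv
          exact ⟨v, c, hc⟩
        · intro v c hl
          exact (hcon v c).1 hl
      obtain ⟨v, c, hvc⟩ := hBG
      rcases hvc with ⟨hl, hB1⟩ | ⟨hv, hdead⟩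
      · have hl' : Legal (H G r k) K F (.inl v) c := legal_inl hr hl
        have hn1 := ncol_update (c := c) hl'.1
        have hlt1 : ncol F < Fintype.card (U V k) := ncol_lt hl'.1
        have hvr : v ≠ r := by
          rintro rfl
          exact hr hl.1
        refine ih (Fintype.card (U V k) - ncol (Function.update F (.inl v) (some c)))
          (by omega) _ rfl ?_ ?_ ?_ (awin_bob hA hev hl')
        · rw [upd_inl_inl]; exact hB1
        · rw [Function.update_of_ne (by simpa using hvr.symm)]; exact hr
        · rw [upd_inl_inr]; exact he
      · refine not_awin_dead (dead_of_not_legal (v := .inl v) hv fun c hl => ?_) hA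
        exact hdead c (legal_of_inl hl)

/-- the mirror state of crown `i`, Alice to move -/
structure Mir (G : SimpleGraph V) (r : V) (k : ℕ) (F : U V k → Option ℕ) (i : Fin (k + 2)) :
    Prop where
  eq : ∀ a, F (.inr (i, a, false)) = F (.inr (i, a, true))
  zero : F (.inr (i, 0, false)) ≠ none
  inj : ∀ a b c, F (.inr (i, a, false)) = some c → F (.inr (i, b, false)) = some c → a = b
  lt : ∀ a c, F (.inr (i, a, false)) = some c → c < k + 1
  even : Even (ncol F)

theorem Mir.eq' {F : U V k → Option ℕ} {i : Fin (k + 2)} (h : Mir G r k F i)
    (a : Fin (k + 2)) (s t : Bool) : F (.inr (i, a, s)) = F (.inr (i, a, t)) := by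
  cases s <;> cases t
  · rfl
  · exact h.eq a
  · exact (h.eq a).symm
  · rfl

/-- number of coloured vertices outside a set -/
theorem exists_outside {A : Type} [Fintype A] [DecidableEq A] (F : A → Option ℕ) (S : Finset A)
    (hA : Even (Fintype.card A)) (hF : ¬ Even (ncol F))
    (hS : Even (S.filter (fun a => F a = none)).card) : ∃ a, a ∉ S ∧ F a = none := by
  by_contra hcon
  push Not at hcon
  have h1 : (univ.filter (fun a => F a = none)) = S.filter (fun a => F a = none) := by
    ext a
    simp only [mem_filter, mem_univ, true_and]
    refine ⟨fun h => ⟨?_, h⟩, fun h => h.2⟩
    by_contra ha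
    exact hcon a ha h
  have h2 := Finset.card_filter_add_card_filter_not (s := (univ : Finset A))
    (fun a => F a = none)
  rw [h1, Finset.card_univ] at h2
  have h3 : ncol F = (univ.filter (fun a => ¬ F a = none)).card := rfl
  rw [← h3] at h2
  rw [← h2, Nat.even_add] at hA
  exact hF (hA.1 hS)

/-- the vertices of crown `i` -/
def crownSet (V : Type) [Fintype V] [DecidableEq V] (k : ℕ) (i : Fin (k + 2)) :
    Finset (U V k) :=
  univ.image (fun p : Fin (k + 2) × Bool => (.inr (i, p) : U V k))

theorem mem_crownSet {i : Fin (k + 2)} {v : U V k} :
    v ∈ crownSet V k i ↔ ∃ p, v = .inr (i, p) := by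
  simp only [crownSet, mem_image, mem_univ, true_and]
  exact ⟨fun ⟨p, h⟩ => ⟨p, h.symm⟩, fun ⟨p, h⟩ => ⟨p, h.symm⟩⟩

theorem crown_even {F : U V k → Option ℕ} {i : Fin (k + 2)}
    (h : ∀ a, F (.inr (i, a, false)) = F (.inr (i, a, true))) :
    Even ((crownSet V k i).filter (fun a => F a = none)).card := by
  have h1 : (crownSet V k i).filter (fun a => F a = none)
      = ((univ.filter (fun a : Fin (k + 2) => F (.inr (i, a, false)) = none)) ×ˢ
        (univ : Finset Bool)).image (fun p => (.inr (i, p) : U V k)) := by
    ext v
    simp only [mem_filter, mem_crownSet, mem_image, mem_product, mem_univ, true_and, and_true]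
    constructor
    · rintro ⟨⟨⟨a, s⟩, rfl⟩, hv⟩
      refine ⟨(a, s), ?_, rfl⟩
      cases s with
      | false => exact hv
      | true => rw [h]; exact hv
    · rintro ⟨⟨a, s⟩, hv, rfl⟩
      refine ⟨⟨_, rfl⟩, ?_⟩
      cases s with
      | false => exact hv
      | true => rw [← h]; exact hv
  rw [h1, Finset.card_image_of_injective _ (fun p q hpq => by simpa using hpq),
    Finset.card_product]
  simp

theorem bob_mirror (hV : Even (Fintype.card V)) : ∀ (F : U V k → Option ℕ) (i : Fin (k + 2)),
    Mir G r k F i → ¬ AWin (H G r k) (k + 1) F := by
  intro F i
  induction hm : Fintype.card (U V k) - ncol F using Nat.strong_induction_on generalizing F with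
  | _ m ih =>
    intro hM hA
    have hcard : Even (Fintype.card (U V k)) := by
      have : Fintype.card (U V k) = Fintype.card V
        + Fintype.card (Fin (k + 2) × Fin (k + 2) × Bool) := Fintype.card_sum
      rw [this]
      exact hV.add card_crowns
    rcases awin_alice hA hM.even with hfull | ⟨v, c, hl, hA1⟩
    · -- pigeonhole
      have hval : ∀ a : Fin (k + 2), ∃ c, F (.inr (i, a, false)) = some c := fun a =>
        Option.ne_none_iff_exists'.1 (hfull _)
      choose g hg using hval
      have hlt : ∀ a, g a < k + 1 := fun a => hM.lt a _ (hg a)
      have hinj : Function.Injective (fun a => (⟨g a, hlt a⟩ : Fin (k + 1))) := by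
        intro a b hab
        simp only [Fin.mk.injEq] at hab
        exact hM.inj a b (g a) (hg a) (by rw [hab]; exact hg b)
      have := Fintype.card_le_of_injective _ hinj
      simp at this
    · have hn1 := ncol_update (c := c) hl.1
      have hlt1 : ncol F < Fintype.card (U V k) := ncol_lt hl.1
      set F1 := Function.update F v (some c) with hF1
      have ho1 : ¬ Even (ncol F1) := by
        rw [hn1, Nat.even_add_one]; exact fun h => h hM.even
      by_cases hv : ∃ p, v = .inr (i, p)
      · obtain ⟨⟨a, s⟩, rfl⟩ := hv
        -- mirror
        have ha0 : a ≠ 0 := by
          rintro rfl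
          have := hl.1
          rw [hM.eq' 0 s false] at this
          exact hM.zero this
        have hno : ∀ b t, b ≠ a → F (.inr (i, b, t)) ≠ some c := by
          intro b t hb
          rw [hM.eq' b t (!s)]
          exact hl.2.2 _ ⟨rfl, fun h => hb h.symm, by cases s <;> simp⟩
        have hl2 : Legal (H G r k) (k + 1) F1 (.inr (i, a, !s)) c := by
          refine ⟨?_, hl.2.1, ?_⟩
          · rw [hF1, Function.update_of_ne (by cases s <;> simp), hM.eq' a (!s) s]
            exact hl.1
          · rintro (u | ⟨i', b, t⟩) hw
            · rw [adj_rl] at hw
              exact absurd hw.2.1 ha0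
            · rw [adj_rr] at hw
              obtain ⟨h1, h2, h3⟩ := hw
              simp only at h1 h2 h3
              subst h1
              rw [hF1, Function.update_of_ne (by
                simp only [ne_eq, Sum.inr.injEq, Prod.mk.injEq, true_and, not_and]
                exact fun h => absurd h.symm h2)]
              exact hno b t (fun h => h2 h.symm)
        have hn2 := ncol_update (c := c) hl2.1
        have hA2 := awin_bob hA1 ho1 hl2
        refine ih (Fintype.card (U V k) - ncol (Function.update F1 (.inr (i, a, !s)) (some c)))
          (by omega) _ rfl ?_ hA2
        have hval : ∀ b t, Function.update F1 (.inr (i, a, !s)) (some c) (.inr (i, b, t))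
            = if b = a then some c else F (.inr (i, b, t)) := by
          intro b t
          by_cases hb : b = a
          · subst hb
            rw [if_pos rfl]
            by_cases ht : t = !s
            · subst ht
              rw [Function.update_self]
            · have hts : t = s := by cases t <;> cases s <;> simp_all
              subst hts
              rw [Function.update_of_ne (by cases t <;> simp), hF1, Function.update_self]
          · rw [if_neg hb, Function.update_of_ne (by simp [hb]), hF1,
              Function.update_of_ne (by simp [hb])]
        refine ⟨?_, ?_, ?_, ?_, ?_⟩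
        · intro b
          rw [hval, hval]
          by_cases hb : b = a
          · rw [if_pos hb, if_pos hb]
          · rw [if_neg hb, if_neg hb]; exact hM.eq b
        · rw [hval, if_neg ha0.symm]; exact hM.zero
        · intro b b' c' h1 h2
          rw [hval] at h1 h2
          by_cases hb : b = a
          · by_cases hb' : b' = a
            · rw [hb, hb']
            · rw [if_pos hb, Option.some.injEq] at h1
              rw [if_neg hb', ← h1] at h2
              exact absurd h2 (hno b' false hb')
          · by_cases hb' : b' = a
            · rw [if_pos hb', Option.some.injEq] at h2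
              rw [if_neg hb, ← h2] at h1
              exact absurd h1 (hno b false hb)
            · rw [if_neg hb] at h1
              rw [if_neg hb'] at h2
              exact hM.inj b b' c' h1 h2
        · intro b c' h1
          rw [hval] at h1
          by_cases hb : b = a
          · rw [if_pos hb, Option.some.injEq] at h1
            rw [← h1]; exact hl.2.1
          · rw [if_neg hb] at h1
            exact hM.lt b c' h1
        · rw [hn2]; exact Nat.even_add_one.2 ho1
      · -- answer outside
        have hcr : ∀ p, F1 (.inr (i, p)) = F (.inr (i, p)) := fun p => by
          rw [hF1, Function.update_of_ne (fun h => hv ⟨p, h.symm⟩)]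
        have hcrown : ∀ a, F1 (.inr (i, a, false)) = F1 (.inr (i, a, true)) := fun a => by
          rw [hcr, hcr]; exact hM.eq a
        obtain ⟨w, hw, hwn⟩ := exists_outside F1 (crownSet V k i) hcard ho1 (crown_even hcrown)
        rw [mem_crownSet] at hw
        by_cases hex : ∃ c', Legal (H G r k) (k + 1) F1 w c'
        · obtain ⟨c', hl'⟩ := hex
          have hn2 := ncol_update (c := c') hl'.1
          have hA2 := awin_bob hA1 ho1 hl'
          refine ih (Fintype.card (U V k) - ncol (Function.update F1 w (some c')))
            (by omega) _ rfl ?_ hA2
          have hval : ∀ p, Function.update F1 w (some c') (.inr (i, p)) = F (.inr (i, p)) :=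
            fun p => by
              rw [Function.update_of_ne (fun h => hw ⟨p, h.symm⟩), hcr]
          refine ⟨?_, ?_, ?_, ?_, ?_⟩
          · intro a; rw [hval, hval]; exact hM.eq a
          · rw [hval]; exact hM.zero
          · intro a b c'' h1 h2
            rw [hval] at h1 h2
            exact hM.inj a b c'' h1 h2
          · intro a c'' h1
            rw [hval] at h1
            exact hM.lt a c'' h1
          · rw [hn2]; exact Nat.even_add_one.2 ho1
        · push Not at hex
          exact not_awin_dead (dead_of_not_legal hwn hex) hA1

/-- the colours seen by the root -/
noncomputable def seen (G : SimpleGraph V) (r : V) (k : ℕ) (F : U V k → Option ℕ) :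
    Finset ℕ := by
  classical
  exact (range (k + 1)).filter (fun c => ∃ w, (H G r k).Adj (.inl r) w ∧ F w = some c)

/-- the fresh crowns -/
noncomputable def fresh (V : Type) [Fintype V] [DecidableEq V] (k : ℕ)
    (F : U V k → Option ℕ) : Finset (Fin (k + 2)) := by
  classical
  exact univ.filter (fun i => ∀ p, F (.inr (i, p)) = none)

theorem mem_seen {F : U V k → Option ℕ} {c : ℕ} : c ∈ seen G r k F ↔
    c < k + 1 ∧ ∃ w, (H G r k).Adj (.inl r) w ∧ F w = some c := by
  classical
  simp [seen]

theorem mem_fresh {F : U V k → Option ℕ} {i : Fin (k + 2)} :
    i ∈ fresh V k F ↔ ∀ p, F (.inr (i, p)) = none := by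
  classical
  simp [fresh]

theorem bob_stage (hV : Even (Fintype.card V)) : ∀ (m : ℕ) (F : U V k → Option ℕ),
    F (.inl r) = none → ¬ Even (ncol F) → k + 1 - (seen G r k F).card ≤ m →
    k + 1 ≤ (seen G r k F).card + (fresh V k F).card → ¬ AWin (H G r k) (k + 1) F := by
  intro m
  induction m with
  | zero =>
    intro F hr ho hm hc hA
    have hsub : seen G r k F ⊆ range (k + 1) := by
      intro c hc
      rw [mem_seen] at hc
      exact mem_range.2 hc.1
    have heq : seen G r k F = range (k + 1) := by
      apply Finset.eq_of_subset_of_card_le hsub
      rw [card_range]
      omega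
    refine not_awin_dead (v := .inl r) ⟨hr, fun c hc => ?_⟩ hA
    have : c ∈ seen G r k F := by rw [heq]; exact mem_range.2 hc
    exact (mem_seen.1 this).2
  | succ m ih =>
    intro F hr ho hm hc hA
    by_cases hall : ∀ c, c < k + 1 → c ∈ seen G r k F
    · exact not_awin_dead (v := .inl r) ⟨hr, fun c hc => (mem_seen.1 (hall c hc)).2⟩ hA
    · push Not at hall
      obtain ⟨c, hck, hcs⟩ := hall
      have hlt : (seen G r k F).card < k + 1 := by
        have hsub : seen G r k F ⊂ range (k + 1) := by
          refine Finset.ssubset_iff_of_subset (fun d hd => ?_) |>.2 ⟨c, mem_range.2 hck, hcs⟩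
          exact mem_range.2 (mem_seen.1 hd).1
        have := Finset.card_lt_card hsub
        rwa [card_range] at this
      have hfr : 0 < (fresh V k F).card := by omega
      obtain ⟨i, hi⟩ := Finset.card_pos.1 hfr
      rw [mem_fresh] at hi
      have hl : Legal (H G r k) (k + 1) F (.inr (i, 0, false)) c := by
        refine ⟨hi _, hck, ?_⟩
        rintro (u | ⟨i', b, t⟩) hw
        · rw [adj_rl] at hw
          rw [hw.1, hr]; simp
        · rw [adj_rr] at hw
          obtain ⟨h1, -, -⟩ := hw
          simp only at h1
          subst h1
          rw [hi]; simp
      set F1 := Function.update F (.inr (i, 0, false)) (some c) with hF1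
      have hA1 := awin_bob hA ho hl
      have hn1 := ncol_update (c := c) hl.1
      have he1 : Even (ncol F1) := by rw [hn1]; exact Nat.even_add_one.2 ho
      have hr1 : F1 (.inl r) = none := by
        rw [hF1, Function.update_of_ne (by simp)]; exact hr
      rcases awin_alice hA1 he1 with hfull | ⟨v, c', hl', hA2⟩
      · exact hfull _ hr1
      · have hn2 := ncol_update (c := c') hl'.1
        set F2 := Function.update F1 v (some c') with hF2
        have ho2 : ¬ Even (ncol F2) := by
          rw [hn2, Nat.even_add_one]; exact fun h => h he1
        by_cases hv : ∃ p, v = .inr (i, p)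
        · -- local answer
          obtain ⟨p, rfl⟩ := hv
          have hr2 : F2 (.inl r) = none := by
            rw [hF2, Function.update_of_ne (by simp)]; exact hr1
          have hmono : insert c (seen G r k F) ⊆ seen G r k F2 := by
            intro d hd
            rw [mem_seen]
            rcases mem_insert.1 hd with rfl | hd
            · refine ⟨hck, .inr (i, 0, false), ⟨rfl, rfl, rfl⟩, ?_⟩
              by_cases hp : p = (0, false)
              · subst hp
                have := hl'.1
                rw [Function.update_self] at this
                exact absurd this (by simp)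
              · rw [hF2, Function.update_of_ne (by
                  simp only [ne_eq, Sum.inr.injEq, Prod.mk.injEq, true_and]
                  exact fun h => hp h.symm), hF1, Function.update_self]
            · obtain ⟨h1, w, hw, hwd⟩ := mem_seen.1 hd
              refine ⟨h1, w, hw, ?_⟩
              have hw1 : w ≠ .inr (i, 0, false) := by
                rintro rfl
                rw [hi] at hwd
                exact absurd hwd (by simp)
              have hw2 : w ≠ .inr (i, p) := by
                rintro rfl
                rw [hi] at hwd
                exact absurd hwd (by simp)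
              rw [hF2, Function.update_of_ne hw2, hF1, Function.update_of_ne hw1]
              exact hwd
          have hcard2 : (seen G r k F).card + 1 ≤ (seen G r k F2).card := by
            rw [← Finset.card_insert_of_notMem hcs]
            exact Finset.card_le_card hmono
          have hfr2 : (fresh V k F).erase i ⊆ fresh V k F2 := by
            intro j hj
            obtain ⟨hji, hj'⟩ := mem_erase.1 hj
            rw [mem_fresh] at hj' ⊢
            intro q
            rw [hF2, Function.update_of_ne (by simp [hji]), hF1,
              Function.update_of_ne (by simp [hji])]
            exact hj' q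
          have hcf2 : (fresh V k F).card ≤ (fresh V k F2).card + 1 := by
            have h1 := Finset.card_le_card hfr2
            rw [Finset.card_erase_of_mem (mem_fresh.2 hi)] at h1
            omega
          exact ih F2 hr2 ho2 (by omega) (by omega) hA2
        · -- mirror move
          have hcr : ∀ p, p ≠ (0, false) → F2 (.inr (i, p)) = none := fun p hp => by
            rw [hF2, Function.update_of_ne (fun h => hv ⟨p, h.symm⟩), hF1,
              Function.update_of_ne (by simpa using hp)]
            exact hi p
          have hc0 : F2 (.inr (i, 0, false)) = some c := by
            rw [hF2, Function.update_of_ne (fun h => hv ⟨_, h.symm⟩), hF1, Function.update_self]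
          have hl3 : Legal (H G r k) (k + 1) F2 (.inr (i, 0, true)) c := by
            refine ⟨hcr _ (by simp), hck, ?_⟩
            rintro (u | ⟨i', b, t⟩) hw
            · rw [adj_rl] at hw
              exact absurd hw.2.2 (by simp)
            · rw [adj_rr] at hw
              obtain ⟨h1, h2, h3⟩ := hw
              simp only at h1 h2 h3
              subst h1
              rw [hcr _ (by simpa using fun h => absurd h.symm h2)]
              simp
          refine bob_mirror hV _ i ?_ (awin_bob hA2 ho2 hl3)
          have hn3 := ncol_update (c := c) hl3.1
          have hval : ∀ a s, Function.update F2 (.inr (i, 0, true)) (some c) (.inr (i, a, s))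
              = if a = 0 then some c else none := by
            intro a s
            by_cases ha : a = 0
            · subst ha
              rw [if_pos rfl]
              cases s with
              | false => rw [Function.update_of_ne (by simp)]; exact hc0
              | true => rw [Function.update_self]
            · rw [if_neg ha, Function.update_of_ne (by simp [ha])]
              exact hcr _ (by simp [ha])
          refine ⟨?_, ?_, ?_, ?_, ?_⟩
          · intro a; rw [hval, hval]
          · rw [hval, if_pos rfl]; simp
          · intro a b c'' h1 h2
            rw [hval] at h1 h2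
            by_cases ha : a = 0
            · by_cases hb : b = 0
              · rw [ha, hb]
              · rw [if_neg hb] at h2; exact absurd h2 (by simp)
            · rw [if_neg ha] at h1; exact absurd h1 (by simp)
          · intro a c'' h1
            rw [hval] at h1
            by_cases ha : a = 0
            · rw [if_pos ha, Option.some.injEq] at h1
              rw [← h1]; exact hck
            · rw [if_neg ha] at h1; exact absurd h1 (by simp)
          · rw [hn3]; exact Nat.even_add_one.2 ho2

/-- **Bob wins with `k + 1` colours.** -/
theorem bob_wins (hV : Even (Fintype.card V))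
    (hB : ¬ AWin G (k + 1) (fun v => if v = r then some 0 else none)) :
    ¬ AWin (H G r k) (k + 1) (fun _ => none) := by
  intro hA
  have h0 : ncol (fun _ : U V k => (none : Option ℕ)) = 0 := by
    unfold ncol; simp
  rcases awin_alice hA (by rw [h0]; simp) with hfull | ⟨v, c, hl, hA1⟩
  · exact hfull (.inl r) rfl
  · have hn1 := ncol_update (f := fun _ : U V k => (none : Option ℕ)) (v := v) (c := c) hl.1
    rw [h0] at hn1
    have ho1 : ¬ Even (ncol (Function.update (fun _ => none) v (some c))) := by
      rw [hn1]; decide
    by_cases hv : v = .inl r
    · subst hv
      refine bob_main _ ?_ ?_ ?_ hA1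
      · intro hG
        apply hB
        have h1 := awin_rename (Equiv.swap 0 c) (fun d => by
          by_cases hd0 : d = 0
          · subst hd0
            rw [Equiv.swap_apply_left]
            exact ⟨fun _ => by omega, fun _ => hl.2.1⟩
          · by_cases hdc : d = c
            · subst hdc
              rw [Equiv.swap_apply_right]
              exact ⟨fun _ => hl.2.1, fun _ => by omega⟩
            · rw [Equiv.swap_apply_of_ne_of_ne hd0 hdc]) hG
        have h2 : (fun v => ((fun v => Function.update (fun _ : U V k => (none : Option ℕ))
            (.inl r) (some c) (.inl v)) v).map (Equiv.swap 0 c))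
            = fun v => if v = r then some 0 else none := by
          funext v
          by_cases hv : v = r
          · subst hv
            simp
          · simp only
            rw [Function.update_of_ne (by simpa using hv), if_neg hv]
            rfl
        rw [h2] at h1
        exact h1
      · rw [Function.update_self]; simp
      · rw [upd_inl_inr]
        unfold ncol
        simp
    · refine bob_stage hV (k + 1) _ ?_ ho1 (by omega) ?_ hA1
      · rw [Function.update_of_ne (fun h => hv h.symm)]
      · have h1 : k + 1 ≤ (fresh V k (Function.update (fun _ => none) v (some c))).card := by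
          rcases v with u | ⟨i, p⟩
          · have : fresh V k (Function.update (fun _ => none) (.inl u) (some c)) = univ := by
              ext j
              rw [mem_fresh]
              simp
            rw [this, Finset.card_univ, Fintype.card_fin]
            omega
          · have h2 : univ.erase i ⊆
                fresh V k (Function.update (fun _ => none) (.inr (i, p)) (some c)) := by
              intro j hj
              rw [mem_fresh]
              intro q
              rw [Function.update_of_ne (by simp [(mem_erase.1 hj).1])]
            have h3 := Finset.card_le_card h2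
            rw [Finset.card_erase_of_mem (mem_univ i), Finset.card_univ, Fintype.card_fin] at h3
            omega
        omega

end Pool.Agent.Lib_helper74.CG.Crown
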