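import Pool.Agent.Lib_helper74.CG.CrownA

set_option autoImplicit false
set_option linter.unusedSectionVars false
set_option linter.unusedSimpArgs false

/-!
# The crown gadget: Alice's win
-/

namespace Pool.Agent.Lib_helper74.CG.Crown

open Finset Pool.Agent.Lib_helper74.CG

variable {V : Type} [Fintype V] [DecidableEq V] {G : SimpleGraph V} {r : V} {k : ℕ}

/-- Alice's invariant, Bob to move -/
structure InvA (G : SimpleGraph V) (r : V) (k : ℕ) (F : U V k → Option ℕ) : Prop where
  legal : LegalPos (H G r k) k F
  root : F (.inl r) = some 0
  main : (¬ Even (ncol (fun v => F (.inl v))) ∧ AWin G k (fun v => F (.inl v))) ∨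
    ∀ v, F (.inl v) ≠ none
  crown : ∀ i, Good G r k F i
  odd : ¬ Even (ncol F)

/-- a legal move in `G` is legal in `H` when the root is coloured -/
theorem legal_inl {F : U V k → Option ℕ} {K : ℕ} (hr : F (.inl r) ≠ none) {v : V} {c : ℕ}
    (hl : Legal G K (fun v => F (.inl v)) v c) : Legal (H G r k) K F (.inl v) c := by
  refine ⟨hl.1, hl.2.1, ?_⟩
  rintro (u | p) hw
  · exact hl.2.2 u hw
  · rw [adj_lr] at hw
    obtain ⟨rfl, -, -⟩ := hw
    exact absurd hl.1 hr

/-- a legal move in `H` at a vertex of `G` is legal in `G` -/
theorem legal_of_inl {F : U V k → Option ℕ} {K : ℕ} {v : V} {c : ℕ}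
    (hl : Legal (H G r k) K F (.inl v) c) : Legal G K (fun v => F (.inl v)) v c :=
  ⟨hl.1, hl.2.1, fun w hw => hl.2.2 (.inl w) hw⟩

/-- all crowns stay good after a move of Alice in one of them -/
theorem extra_move (hk : 4 ≤ k) {F : U V k → Option ℕ} (hL : LegalPos (H G r k) k F)
    (hr : F (.inl r) = some 0) (hg : ∀ i, Good G r k F i)
    (hex : ∃ p, F (.inr p) = none) :
    ∃ q c, Legal (H G r k) k F (.inr q) c ∧
      ∀ i, Good G r k (Function.update F (.inr q) (some c)) i := by
  obtain ⟨⟨i, p⟩, hp⟩ := hex
  obtain ⟨q, c, hl, hg'⟩ := extra_crown hk hL hr (hg i) hp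
  refine ⟨(i, q), c, hl, fun j => ?_⟩
  by_cases hij : j = i
  · subst hij; exact hg'
  · refine (hg j).update hl (fun p' he => hij ?_)
    simp only [Sum.inr.injEq, Prod.mk.injEq] at he
    exact he.1

theorem card_crowns : Even (Fintype.card (Fin (k + 2) × Fin (k + 2) × Bool)) := by
  simp only [Fintype.card_prod, Fintype.card_bool]
  exact (even_two.mul_left _).mul_left _

theorem ncol_full {A : Type} [Fintype A] {F : A → Option ℕ} (h : ∀ a, F a ≠ none) :
    ncol F = Fintype.card A := by
  unfold ncol
  rw [Finset.filter_true_of_mem (fun a _ => h a), Finset.card_univ]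

theorem InvA.awin (hk : 4 ≤ k) {F : U V k → Option ℕ}
    (h : InvA G r k F) : AWin (H G r k) k F := by
  induction hm : Fintype.card (U V k) - ncol F using Nat.strong_induction_on generalizing F with
  | _ m ih =>
    -- Alice moves in a crown
    have stepCrown : ∀ F1 : U V k → Option ℕ, LegalPos (H G r k) k F1 → F1 (.inl r) = some 0 →
        ((¬ Even (ncol (fun v => F1 (.inl v))) ∧ AWin G k (fun v => F1 (.inl v))) ∨
          ∀ v, F1 (.inl v) ≠ none) →
        Even (ncol F1) → ncol F < ncol F1 →
        (∃ q c, Legal (H G r k) k F1 (.inr q) c ∧
          ∀ i, Good G r k (Function.update F1 (.inr q) (some c)) i) →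
        AWin (H G r k) k F1 := by
      rintro F1 h1 h2 h3 h4 h5 ⟨q, c, hl, hg⟩
      refine awin_of_move h4 hl ?_
      have hn := ncol_update (c := c) hl.1
      have hlt : ncol F1 < Fintype.card (U V k) := ncol_lt hl.1
      refine ih (Fintype.card (U V k) - ncol (Function.update F1 (.inr q) (some c))) (by omega)
        ⟨h1.update hl, ?_, ?_, hg, ?_⟩ rfl
      · rw [Function.update_of_ne (by simp)]; exact h2
      · rw [upd_inr_inl]
        rcases h3 with h3 | h3
        · exact Or.inl h3
        · refine Or.inr fun v => ?_
          rw [Function.update_of_ne (by simp)]; exact h3 v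
      · rw [hn, Nat.even_add_one]
        exact fun h => h h4
    refine awin_of_all h.odd ?_ ?_
    · rintro ⟨w, hw⟩
      rcases w with w | p
      · rcases h.main with hm | hm
        · obtain ⟨v, c, hl⟩ := awin_exists_legal hm.2 (w := w) hw
          exact ⟨.inl v, c, legal_inl (by rw [h.root]; simp) hl⟩
        · exact absurd hw (hm w)
      · obtain ⟨q, c, hl, -⟩ := extra_move hk h.legal h.root h.crown ⟨p, hw⟩
        exact ⟨_, _, hl⟩
    · rintro (v | ⟨i, p⟩) c hl
      · -- Bob moves in `G`
        set F1 := Function.update F (.inl v) (some c) with hF1
        have hn1 : ncol F1 = ncol F + 1 := ncol_update hl.1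
        have he1 : Even (ncol F1) := by
          rw [hn1]; exact Nat.even_add_one.2 h.odd
        have hvr : v ≠ r := by
          rintro rfl
          have := hl.1
          rw [h.root] at this
          exact absurd this (by simp)
        have hr1 : F1 (.inl r) = some 0 := by
          rw [hF1, Function.update_of_ne (by simpa using hvr.symm)]; exact h.root
        have hL1 := h.legal.update hl
        have hg1 : ∀ i, Good G r k F1 i := fun i => (h.crown i).update hl (fun p => by simp)
        have hmain : ¬ Even (ncol (fun v => F (.inl v))) ∧ AWin G k (fun v => F (.inl v)) := by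
          rcases h.main with hm | hm
          · exact hm
          · exact absurd hl.1 (hm v)
        have hlG := legal_of_inl hl
        have hA1 : AWin G k (fun v => F1 (.inl v)) := by
          rw [hF1, upd_inl_inl]
          exact awin_bob hmain.2 hmain.1 hlG
        have heG : Even (ncol (fun v => F1 (.inl v))) := by
          rw [hF1, upd_inl_inl, ncol_update (f := fun v => F (.inl v)) hlG.1]
          exact Nat.even_add_one.2 hmain.1
        rcases awin_alice hA1 heG with hfull | ⟨v', c', hl', hA2⟩
        · -- `G` is full
          by_cases hcr : ∃ p, F1 (.inr p) = none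
          · exact stepCrown F1 hL1 hr1 (Or.inr hfull) he1 (by omega)
              (extra_move hk hL1 hr1 hg1 hcr)
          · push Not at hcr
            refine awin_of_full ?_
            rintro (u | p)
            · exact hfull u
            · exact hcr p
        · have hl2 : Legal (H G r k) k F1 (.inl v') c' :=
            legal_inl (by rw [hr1]; simp) hl'
          refine awin_of_move he1 hl2 ?_
          have hn2 := ncol_update (c := c') hl2.1
          have hlt2 : ncol F1 < Fintype.card (U V k) := ncol_lt hl2.1
          have hv'r : v' ≠ r := by
            rintro rfl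
            have := hl2.1
            rw [hr1] at this
            exact absurd this (by simp)
          refine ih (Fintype.card (U V k) - ncol (Function.update F1 (.inl v') (some c')))
            (by omega) ⟨hL1.update hl2, ?_, ?_, ?_, ?_⟩ rfl
          · rw [Function.update_of_ne (by simpa using hv'r.symm)]; exact hr1
          · left
            rw [upd_inl_inl, ncol_update (f := fun v => F1 (.inl v)) hl'.1]
            refine ⟨?_, hA2⟩
            rw [Nat.even_add_one]
            exact fun h => h heG
          · exact fun i => (hg1 i).update hl2 (fun p => by simp)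
          · rw [hn2, Nat.even_add_one]
            exact fun h => h he1
      · -- Bob moves in crown `i`
        set F1 := Function.update F (.inr (i, p)) (some c) with hF1
        have hn1 : ncol F1 = ncol F + 1 := ncol_update hl.1
        have he1 : Even (ncol F1) := by
          rw [hn1]; exact Nat.even_add_one.2 h.odd
        have hr1 : F1 (.inl r) = some 0 := by
          rw [hF1, Function.update_of_ne (by simp)]; exact h.root
        have hL1 := h.legal.update hl
        have hgo : ∀ j, j ≠ i → Good G r k F1 j := fun j hj =>
          (h.crown j).update hl (fun p' he => hj (by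
            simp only [Sum.inr.injEq, Prod.mk.injEq] at he
            exact he.1))
        have hmain1 : (¬ Even (ncol (fun v => F1 (.inl v))) ∧ AWin G k (fun v => F1 (.inl v))) ∨
            ∀ v, F1 (.inl v) ≠ none := by
          rw [hF1, upd_inr_inl]
          rcases h.main with h3 | h3
          · exact Or.inl h3
          · refine Or.inr fun v => ?_
            rw [Function.update_of_ne (by simp)]; exact h3 v
        rcases reply_crown hk h.legal h.root (h.crown i) hl with hs | ⟨q, e, hle, hge⟩
        · have hg1 : ∀ j, Good G r k F1 j := by
            intro j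
            by_cases hj : j = i
            · subst hj
              exact Or.inr (Or.inr (Or.inr hs))
            · exact hgo j hj
          by_cases hcr : ∃ p, F1 (.inr p) = none
          · exact stepCrown F1 hL1 hr1 hmain1 he1 (by omega) (extra_move hk hL1 hr1 hg1 hcr)
          · push Not at hcr
            rcases hmain1 with hm1 | hm1
            · exfalso
              have h5 := ncol_sum F1
              rw [ncol_full (F := fun b => F1 (.inr b)) hcr] at h5
              have h6 : ¬ Even (ncol F1) := by
                rw [h5, Nat.even_add]
                intro h7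
                exact hm1.1 (h7.2 card_crowns)
              exact h6 he1
            · refine awin_of_full ?_
              rintro (u | p)
              · exact hm1 u
              · exact hcr p
        · refine stepCrown F1 hL1 hr1 hmain1 he1 (by omega) ⟨(i, q), e, hle, fun j => ?_⟩
          by_cases hj : j = i
          · subst hj; exact hge
          · exact (hgo j hj).update hle (fun p' he => hj (by
              simp only [Sum.inr.injEq, Prod.mk.injEq] at he
              exact he.1))

/-- **Alice wins with `k` colours.** -/
theorem alice_wins (hk : 4 ≤ k)
    (hA : AWin G k (fun v => if v = r then some 0 else none)) :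
    AWin (H G r k) k (fun _ => none) := by
  have h0 : ncol (fun _ : U V k => (none : Option ℕ)) = 0 := by
    unfold ncol; simp
  have hl : Legal (H G r k) k (fun _ => none) (.inl r) 0 := ⟨rfl, by omega, by simp⟩
  refine awin_of_move (by rw [h0]; simp) hl ?_
  have hG : (fun v => Function.update (fun _ : U V k => (none : Option ℕ)) (.inl r) (some 0)
      (.inl v)) = fun v => if v = r then some 0 else none := by
    funext v
    by_cases hv : v = r
    · subst hv; simp
    · rw [Function.update_of_ne (by simpa using hv), if_neg hv]
  refine InvA.awin hk ⟨?_, Function.update_self _ _ _, ?_, ?_, ?_⟩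
  · refine LegalPos.update ⟨?_, ?_⟩ hl
    · intro v c h; exact absurd h (by simp)
    · intro v w c _ h; exact absurd h (by simp)
  · left
    rw [hG]
    refine ⟨?_, hA⟩
    have : ncol (fun v : V => if v = r then some 0 else none) = 1 := by
      unfold ncol
      rw [Finset.card_eq_one]
      refine ⟨r, ?_⟩
      ext v
      by_cases hv : v = r <;> simp [hv]
    rw [this]
    decide
  · intro i
    left
    intro p
    rw [Function.update_of_ne (by simp)]
  · rw [ncol_update hl.1, h0]
    decide

end Pool.Agent.Lib_helper74.CG.Crown
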